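import Pool.Agent.KS6_16.NM.Pos
import Pool.Graph.R_seed8.Results.MP_3570a5_nt.UnboundedInEveryDimension

/-!
# Failure for all `d ≥ 3`, `p ≥ 2`
-/

open Finset

set_option linter.unusedSectionVars false

namespace Pool.Agent.KS6_16.NM

open Pool.Agent.Results.MP_3570a5_nt.NegativeCoefficient
open Pool.Agent.Y825.NM (hull mem_poly zero_mem_hull mem_hull convex_poly GroupEmb)

/-- Fano data with exponentially large negative coefficients. -/
def Bad (d p : ℕ) : Prop :=
  ∃ (q : Fin p → ℕ) (v : Idx q → Fin d → ℤ), (∀ i, 1 ≤ q i) ∧ Standing v ∧ Fano v ∧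
    ∃ a : Idx q, ∀ n : ℕ, ∃ k : Idx q →₀ ℕ, InK0 v k ∧ ∑ b, k b = 4 * n + 8 ∧
      MvPowerSeries.coeff k (logMirror v a) ≤ -4 ^ (n + 2)

section step

variable {d p : ℕ} {q : Fin p → ℕ}

/-- The sizes of the groups, with a new first group of size one. -/
def q1 (q : Fin p → ℕ) : Fin (p + 1) → ℕ := Fin.cons 1 q

/-- A zero vector as a new group. -/
def v1 (v : Idx q → Fin d → ℤ) : Idx (q1 q) → Fin d → ℤ := fun a =>
  Fin.cases (motive := fun i => Fin (q1 q i) → Fin d → ℤ) (fun _ => 0) (fun i j => v ⟨i, j⟩) a.1 a.2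

lemma v1_zero (v : Idx q → Fin d → ℤ) (j : Fin (q1 q 0)) : v1 v ⟨0, j⟩ = 0 := rfl

lemma v1_succ (v : Idx q → Fin d → ℤ) (i : Fin p) (j : Fin (q i)) :
    v1 v ⟨i.succ, j⟩ = v ⟨i, j⟩ := rfl

lemma hull_succ (v : Idx q → Fin d → ℤ) (i : Fin p) : hull (v1 v) i.succ = hull v i := rfl

lemma toReal_zero : toReal (0 : Fin d → ℤ) = 0 := by
  funext t
  simp [toReal]

lemma hull_zero (v : Idx q → Fin d → ℤ) : hull (v1 v) 0 = {0} := by
  unfold hull
  have h : (insert (0 : Fin d → ℝ) (Set.range fun j => toReal (v1 v ⟨0, j⟩))) = {0} := by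
    ext x
    constructor
    · rintro (h | ⟨j, h⟩)
      · exact h
      · rw [← h]
        show toReal (v1 v ⟨0, j⟩) = 0
        rw [v1_zero, toReal_zero]
    · intro h
      exact Or.inl h
  rw [h, convexHull_singleton]

lemma poly_v1 (v : Idx q → Fin d → ℤ) : poly (v1 v) = poly v := by
  ext y
  rw [mem_poly, mem_poly]
  constructor
  · rintro ⟨g, hg, rfl⟩
    refine ⟨fun i => g i.succ, fun i => hg i.succ, ?_⟩
    rw [Fin.sum_univ_succ]
    have h := hg 0
    rw [hull_zero] at h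
    rw [h, zero_add]
  · rintro ⟨g, hg, rfl⟩
    refine ⟨Fin.cons 0 g, fun i => ?_, ?_⟩
    · refine Fin.cases ?_ (fun i => ?_) i
      · exact zero_mem_hull _ _
      · exact hg i
    · rw [Fin.sum_univ_succ]
      simp

/-- The embedding of the old index set. -/
def emb1 (q : Fin p → ℕ) : GroupEmb q (q1 q) where
  e := Fin.succ
  e_inj := Fin.succ_injective p
  g := fun _ => id
  g_inj := fun _ => Function.injective_id

lemma sum_embDomain (k : Idx q →₀ ℕ) : ∑ b, k.embDomain (emb1 q).ι b = ∑ b, k b := by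
  symm
  refine Fintype.sum_of_injective (emb1 q).ι (emb1 q).ι.injective _ _ ?_ ?_
  · intro b hb
    exact Finsupp.embDomain_of_notMem_range _ _ _ hb
  · intro a
    exact (Finsupp.embDomain_apply_self _ _ _).symm

theorem bad_succ (h : Bad d p) : Bad d (p + 1) := by
  obtain ⟨q, v, hq, hS, hF, a, ha⟩ := h
  refine ⟨q1 q, v1 v, ?_, ⟨?_, ?_⟩, ?_, (emb1 q).ι a, fun n => ?_⟩
  · intro i
    refine Fin.cases ?_ (fun i => ?_) i
    · exact le_rfl
    · exact hq i
  · rw [poly_v1]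
    exact hS.1
  · refine top_unique ?_
    rw [← hS.2]
    refine Submodule.span_mono ?_
    rintro _ ⟨⟨i, j⟩, rfl⟩
    exact ⟨⟨i.succ, j⟩, rfl⟩
  · intro x
    rw [poly_v1]
    exact hF x
  · obtain ⟨k, hk, hd, hc⟩ := ha n
    refine ⟨k.embDomain (emb1 q).ι, ?_, ?_, ?_⟩
    · exact ((emb1 q).inK0_ext (v := v) (v' := v1 v) LinearMap.id Function.injective_id
        (fun _ => rfl) k).mpr hk
    · rw [sum_embDomain, hd]
    · rw [(emb1 q).coeff_ext (v := v) (v' := v1 v) LinearMap.id Function.injective_id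
        (fun _ => rfl) a k]
      exact hc

end step

/-- **Failure for all `d ≥ 3`, `p ≥ 2`.** -/
theorem bad_all {d p : ℕ} (hd : 3 ≤ d) (hp : 2 ≤ p) : Bad d p := by
  induction p, hp using Nat.le_induction with
  | base =>
    obtain ⟨q, v, hq, -, -, hS, hF, h⟩ :=
      Pool.Agent.Results.MP_3570a5_nt.UnboundedInEveryDimension.result d 2 le_rfl hd
    exact ⟨q, v, hq, hS, hF, h⟩
  | succ p _ ih => exact bad_succ ih

end Pool.Agent.KS6_16.NM
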