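import Pool.Agent.KS6_16.NM.Pos
import Pool.Graph.R_seed8.Y825.NM.Poly

/-!
# Fano data in dimension one and two satisfy the criterion
-/

open Finset

set_option linter.unusedSectionVars false

namespace Pool.Agent.KS6_16.NM

open Pool.Agent.Results.MP_3570a5_nt.NegativeCoefficient
open Pool.Agent.Y825.NM (hull mem_poly zero_mem_hull mem_hull convex_poly)

variable {d p : ℕ} {q : Fin p → ℕ}

/-- Sub-convex combinations of the vectors of a group lie in the summand. -/
lemma sum_mem_hull (v : Idx q → Fin d → ℤ) (l : Fin p) (c : Fin (q l) → ℝ) (h0 : ∀ j, 0 ≤ c j)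
    (h1 : ∑ j, c j ≤ 1) : ∑ j, c j • toReal (v ⟨l, j⟩) ∈ hull v l := by
  have h2 := (convex_convexHull ℝ (insert 0 (Set.range fun j => toReal (v ⟨l, j⟩)))).sum_mem
    (t := (Finset.univ : Finset (Option (Fin (q l)))))
    (w := fun o => o.elim (1 - ∑ j, c j) c)
    (z := fun o => o.elim 0 (fun j => toReal (v ⟨l, j⟩))) ?_ ?_ ?_
  · rw [Fintype.sum_option] at h2
    simpa [hull] using h2
  · rintro (_ | j) _
    · simpa using h1
    · exact h0 j
  · rw [Fintype.sum_option]
    simp
  · rintro (_ | j) _
    · exact zero_mem_hull v l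
    · exact mem_hull v l j

/-- In Fano data no non-zero vector lies in the cone of the vectors of the other groups. -/
theorem not_in_cone (v : Idx q → Fin d → ℤ) (hS : (0 : Fin d → ℝ) ∈ interior (poly v))
    (hF : Fano v) (a : Idx q) (N : ℤ) (hN : 0 < N) (m : Idx q → ℤ) (hm0 : ∀ b, 0 ≤ m b)
    (hm : ∀ b, b.1 = a.1 → m b = 0) (h : N • v a = ∑ b, m b • v b) : v a = 0 := by
  classical
  rw [← hF]
  set M : ℝ := ∑ b, (m b : ℝ) with hM
  have hM0 : 0 ≤ M := Finset.sum_nonneg fun b _ => by exact_mod_cast hm0 b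
  set δ : ℝ := (N : ℝ) / (M + 1) with hδ
  have hNr : (0 : ℝ) < N := by exact_mod_cast hN
  have hδ0 : 0 < δ := by positivity
  have hreal : (N : ℝ) • toReal (v a) = ∑ b, (m b : ℝ) • toReal (v b) := by
    funext t
    have h1 := congrFun h t
    simp only [Pi.smul_apply, Finset.sum_apply, smul_eq_mul, toReal] at h1 ⊢
    exact_mod_cast h1
  have hmem : (1 + δ) • toReal (v a) ∈ poly v := by
    rw [mem_poly]
    refine ⟨fun l => if l = a.1 then toReal (v a) else
      ∑ j, ((1 / (M + 1)) * (m ⟨l, j⟩ : ℝ)) • toReal (v ⟨l, j⟩), fun l => ?_, ?_⟩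
    · by_cases hl : l = a.1
      · subst hl
        simp only [if_true]
        exact mem_hull v a.1 a.2
      · simp only [if_neg hl]
        refine sum_mem_hull v l _ (fun j => ?_) ?_
        · have : (0 : ℝ) ≤ m ⟨l, j⟩ := by exact_mod_cast hm0 _
          positivity
        · rw [← Finset.mul_sum]
          have h2 : ∑ j, (m ⟨l, j⟩ : ℝ) ≤ M := by
            rw [hM, Fintype.sum_sigma]
            exact Finset.single_le_sum (f := fun l => ∑ j, (m ⟨l, j⟩ : ℝ))
              (fun l _ => Finset.sum_nonneg fun j _ => by exact_mod_cast hm0 _) (Finset.mem_univ l)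
          rw [one_div, inv_mul_le_iff₀ (by positivity)]
          linarith
    · rw [← Finset.add_sum_erase _ _ (Finset.mem_univ a.1), if_pos rfl, add_smul, one_smul]
      congr 1
      have h3 : δ • toReal (v a) = (1 / (M + 1)) • ∑ b, (m b : ℝ) • toReal (v b) := by
        rw [← hreal, smul_smul, hδ]
        congr 1
        ring
      rw [h3, Fintype.sum_sigma, ← Finset.add_sum_erase _ _ (Finset.mem_univ a.1)]
      have h4 : ∑ j, (m ⟨a.1, j⟩ : ℝ) • toReal (v ⟨a.1, j⟩) = 0 := by
        refine Finset.sum_eq_zero fun j _ => ?_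
        rw [hm ⟨a.1, j⟩ rfl]
        simp
      rw [h4, zero_add, Finset.smul_sum]
      refine Finset.sum_congr rfl fun l hl => ?_
      rw [if_neg (Finset.ne_of_mem_erase hl), Finset.smul_sum]
      refine Finset.sum_congr rfl fun j _ => ?_
      rw [smul_smul]
  have h5 := (convex_poly v).combo_interior_self_mem_interior hS hmem
    (a := δ / (1 + δ)) (b := 1 / (1 + δ)) (by positivity) (by positivity) (by field_simp; ring)
  rwa [smul_zero, zero_add, smul_smul, one_div, inv_mul_cancel₀ (by positivity), one_smul] at h5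

/-- The determinant. -/
def det (x y : ℤ × ℤ) : ℤ := x.1 * y.2 - x.2 * y.1

/-- The scalar product. -/
def dot (x y : ℤ × ℤ) : ℤ := x.1 * y.1 + x.2 * y.2

lemma det_sum {ι : Type*} [Fintype ι] (c : ℤ × ℤ) (m : ι → ℤ) (f : ι → ℤ × ℤ) :
    det c (∑ b, m b • f b) = ∑ b, m b * det c (f b) := by
  unfold det
  rw [Prod.fst_sum, Prod.snd_sum, Finset.mul_sum, Finset.mul_sum, ← Finset.sum_sub_distrib]
  refine Finset.sum_congr rfl fun b _ => ?_
  simp only [Prod.smul_fst, Prod.smul_snd, smul_eq_mul]
  ring

lemma dot_sum {ι : Type*} [Fintype ι] (c : ℤ × ℤ) (m : ι → ℤ) (f : ι → ℤ × ℤ) :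
    dot c (∑ b, m b • f b) = ∑ b, m b * dot c (f b) := by
  unfold dot
  rw [Prod.fst_sum, Prod.snd_sum, Finset.mul_sum, Finset.mul_sum, ← Finset.sum_add_distrib]
  refine Finset.sum_congr rfl fun b _ => ?_
  simp only [Prod.smul_fst, Prod.smul_snd, smul_eq_mul]
  ring

lemma dot_self_pos {c : ℤ × ℤ} (hc : c ≠ 0) : 0 < dot c c := by
  unfold dot
  rcases Int.lt_or_gt_of_ne (a := c.1) (b := 0) |>.mt with h
  by_contra h1
  push Not at h1
  have h2 : c.1 = 0 := by nlinarith [sq_nonneg c.1, sq_nonneg c.2]
  have h3 : c.2 = 0 := by nlinarith [sq_nonneg c.1, sq_nonneg c.2]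
  exact hc (Prod.ext h2 h3)

/-- A non-zero vector `c` which for every group is a combination of the vectors outside the group
does not exist, if no non-zero vector lies in the cone of the vectors of the other groups. -/
theorem plane (f : Idx q → ℤ × ℤ) (hp : 1 ≤ p)
    (HG : ∀ (a : Idx q) (N : ℤ) (m : Idx q → ℤ), 0 < N → (∀ b, 0 ≤ m b) →
      (∀ b, b.1 = a.1 → m b = 0) → N • f a = ∑ b, m b • f b → f a = 0)
    (c : ℤ × ℤ) (hc : ∀ l : Fin p, ∃ m : Idx q → ℤ, (∀ b, 0 ≤ m b) ∧ (∀ b, b.1 = l → m b = 0) ∧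
      ∑ b, m b • f b = c) : c = 0 := by
  classical
  by_contra hc0
  have hcc := dot_self_pos hc0
  -- the dichotomy
  have key : ∀ l : Fin p, ∃ x : Idx q, x.1 ≠ l ∧ det c (f x) < 0 := by
    intro l
    obtain ⟨m, hm0, hml, hms⟩ := hc l
    by_contra hno
    push Not at hno
    have hdet : ∑ b, m b * det c (f b) = 0 := by
      rw [← det_sum, hms]
      unfold det
      ring
    have hz : ∀ b ∈ Finset.univ, m b * det c (f b) = 0 := by
      refine (Finset.sum_eq_zero_iff_of_nonneg fun b _ => ?_).mp hdet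
      by_cases hb : b.1 = l
      · rw [hml b hb, zero_mul]
      · exact mul_nonneg (hm0 b) (hno b hb)
    have hdot : 0 < ∑ b, m b * dot c (f b) := by
      rw [← dot_sum, hms]
      exact hcc
    obtain ⟨b, -, hb⟩ : ∃ b ∈ Finset.univ, 0 < m b * dot c (f b) := by
      by_contra h1
      push Not at h1
      exact absurd (Finset.sum_nonpos h1) (not_le.mpr hdot)
    have hmb : 0 < m b := by
      rcases (hm0 b).lt_or_eq with h1 | h1
      · exact h1
      · rw [← h1, zero_mul] at hb
        exact absurd hb (lt_irrefl _)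
    have hdb : 0 < dot c (f b) := (mul_pos_iff_of_pos_left hmb).mp hb
    have hdet0 : det c (f b) = 0 := by
      rcases mul_eq_zero.mp (hz b (Finset.mem_univ b)) with h1 | h1
      · omega
      · exact h1
    obtain ⟨m', hm0', hml', hms'⟩ := hc b.1
    have h2 : dot c c • f b = ∑ b', (dot c (f b) * m' b') • f b' := by
      have h3 : ∑ b', (dot c (f b) * m' b') • f b' = dot c (f b) • c := by
        rw [← hms', Finset.smul_sum]
        refine Finset.sum_congr rfl fun b' _ => ?_
        rw [smul_smul, hms']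
      rw [h3]
      unfold det at hdet0
      unfold dot
      refine Prod.ext ?_ ?_
      · simp only [Prod.smul_fst, smul_eq_mul]
        linear_combination (-c.2) * hdet0
      · simp only [Prod.smul_snd, smul_eq_mul]
        linear_combination c.1 * hdet0
    have h3 := HG b (dot c c) (fun b' => dot c (f b) * m' b') hcc
      (fun b' => mul_nonneg hdb.le (hm0' b')) (fun b' hb' => by rw [hml' b' hb', mul_zero]) h2
    rw [h3] at hdb
    unfold dot at hdb
    simp at hdb
  obtain ⟨x, -, hx⟩ := key ⟨0, hp⟩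
  obtain ⟨z, hzx, hz⟩ := key x.1
  rcases le_or_gt (det (f x) (f z)) 0 with hxz | hxz
  · obtain ⟨m, hm0, hml, hms⟩ := hc x.1
    have h2 : (-det c (f z)) • f x =
        ∑ b, ((if b = z then -det c (f x) else 0) + (-det (f x) (f z)) * m b) • f b := by
      have h3 : ∑ b, ((if b = z then -det c (f x) else 0) + (-det (f x) (f z)) * m b) • f b =
          (-det c (f x)) • f z + (-det (f x) (f z)) • c := by
        rw [← hms, Finset.smul_sum]
        simp only [add_smul, Finset.sum_add_distrib, ite_smul, zero_smul, Finset.sum_ite_eq',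
          Finset.mem_univ, if_true, smul_smul]
      rw [h3]
      unfold det
      refine Prod.ext ?_ ?_
      · simp only [Prod.smul_fst, Prod.fst_add, smul_eq_mul]
        ring
      · simp only [Prod.smul_snd, Prod.snd_add, smul_eq_mul]
        ring
    have h3 := HG x _ _ (by omega) (fun b => ?_) (fun b hb => ?_) h2
    · rw [h3] at hx
      unfold det at hx
      simp at hx
    · refine add_nonneg ?_ (mul_nonneg (by omega) (hm0 b))
      split_ifs <;> omega
    · rw [hml b hb, mul_zero, add_zero, if_neg]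
      rintro rfl
      exact hzx hb
  · obtain ⟨m, hm0, hml, hms⟩ := hc z.1
    have h2 : (-det c (f x)) • f z =
        ∑ b, ((if b = x then -det c (f z) else 0) + (det (f x) (f z)) * m b) • f b := by
      have h3 : ∑ b, ((if b = x then -det c (f z) else 0) + (det (f x) (f z)) * m b) • f b =
          (-det c (f z)) • f x + (det (f x) (f z)) • c := by
        rw [← hms, Finset.smul_sum]
        simp only [add_smul, Finset.sum_add_distrib, ite_smul, zero_smul, Finset.sum_ite_eq',
          Finset.mem_univ, if_true, smul_smul]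
      rw [h3]
      unfold det
      refine Prod.ext ?_ ?_
      · simp only [Prod.smul_fst, Prod.fst_add, smul_eq_mul]
        ring
      · simp only [Prod.smul_snd, Prod.snd_add, smul_eq_mul]
        ring
    have h3 := HG z _ _ (by omega) (fun b => ?_) (fun b hb => ?_) h2
    · rw [h3] at hz
      unfold det at hz
      simp at hz
    · refine add_nonneg ?_ (mul_nonneg (by omega) (hm0 b))
      split_ifs <;> omega
    · rw [hml b hb, mul_zero, add_zero, if_neg]
      rintro rfl
      exact hzx hb.symm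

/-- The embedding of `ℤ^d`, `d ≤ 2`, in the plane. -/
def toPlane (x : Fin d → ℤ) : ℤ × ℤ :=
  (if h : 0 < d then x ⟨0, h⟩ else 0, if h : 1 < d then x ⟨1, h⟩ else 0)

lemma toPlane_inj (hd : d ≤ 2) {x y : Fin d → ℤ} (h : toPlane x = toPlane y) : x = y := by
  funext t
  unfold toPlane at h
  have h1 := congrArg Prod.fst h
  have h2 := congrArg Prod.snd h
  have h0 : 0 < d := t.pos
  simp only [h0, dif_pos] at h1
  rcases Nat.lt_or_ge t.1 1 with ht | ht
  · have : t = ⟨0, h0⟩ := Fin.ext (by simp; omega)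
    rw [this]
    exact h1
  · have h3 : 1 < d := by omega
    simp only [h3, dif_pos] at h2
    have : t = ⟨1, h3⟩ := Fin.ext (by simp; omega)
    rw [this]
    exact h2

lemma toPlane_sum {ι : Type*} [Fintype ι] (m : ι → ℤ) (v : ι → Fin d → ℤ) :
    toPlane (∑ b, m b • v b) = ∑ b, m b • toPlane (v b) := by
  refine Prod.ext ?_ ?_
  · rw [Prod.fst_sum]
    by_cases h : 0 < d
    · simp [toPlane, h, Finset.sum_apply]
    · simp [toPlane, h]
  · rw [Prod.snd_sum]
    by_cases h : 1 < d
    · simp [toPlane, h, Finset.sum_apply]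
    · simp [toPlane, h]

lemma toPlane_smul (N : ℤ) (x : Fin d → ℤ) : toPlane (N • x) = N • toPlane x := by
  refine Prod.ext ?_ ?_
  · by_cases h : 0 < d
    · simp [toPlane, h]
    · simp [toPlane, h]
  · by_cases h : 1 < d
    · simp [toPlane, h]
    · simp [toPlane, h]

/-- **Dimension at most two.** All coefficients are non-negative for all Fano data. -/
theorem plane_nonneg (hd : d ≤ 2) (hp : 1 ≤ p) (v : Idx q → Fin d → ℤ) (hS : Standing v)
    (hF : Fano v) (a : Idx q) (k : Idx q →₀ ℕ) :
    0 ≤ MvPowerSeries.coeff k (logMirror v a) := by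
  refine logMirror_nonneg' v (fun k hk => ?_) a k
  have h1 := plane (fun b => toPlane (v b)) hp ?_ (toPlane (V v k)) ?_
  · have h2 : V v k = 0 := toPlane_inj hd (by
      rw [h1]
      have h3 := toPlane_smul (d := d) 0 0
      rw [zero_smul, zero_smul] at h3
      exact h3.symm)
    exact h2
  · intro a N m hN hm0 hm h
    rw [← toPlane_smul, ← toPlane_sum] at h
    have h3 := not_in_cone v hS.1 hF a N hN m hm0 hm (toPlane_inj hd h)
    show toPlane (v a) = 0
    rw [h3]
    have h4 := toPlane_smul (d := d) 0 0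
    rw [zero_smul, zero_smul] at h4
    exact h4
  · intro l
    obtain ⟨m, hm, hV⟩ := hk l
    refine ⟨fun b => (m b : ℤ), fun b => Int.natCast_nonneg _, ?_, ?_⟩
    · rintro ⟨l', j⟩ rfl
      show ((m ⟨l', j⟩ : ℕ) : ℤ) = 0
      rw [hm j]
      rfl
    · rw [← toPlane_sum]
      exact congrArg toPlane hV

end Pool.Agent.KS6_16.NM
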