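import Pool.Graph.R_seed8.Y136.MM.Single

/-!
# A criterion for the non-negativity of the logarithm of the naive mirror map (any number of groups)

`V k = ∑ k_a v_a`.  If `V k = 0` for every exponent `k` such that for every group `l` the vector
`V k` is a non-negative integer combination of the vectors outside the group `l`, then all
coefficients of all `φ_a / φ₀` are non-negative.
-/

open Finset

set_option linter.unusedSectionVars false

namespace Pool.Agent.KS6_16.NM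

open Pool.Agent.Results.MP_3570a5_nt.NegativeCoefficient Pool.Agent.Y136.MM

variable {d p : ℕ} {q : Fin p → ℕ}

/-- The sum of the variables of a group. -/
noncomputable def Ug (q : Fin p → ℕ) (l : Fin p) : MvPowerSeries (Idx q) ℚ :=
  ∑ j : Fin (q l), MvPowerSeries.X ⟨l, j⟩

lemma coeff_Ug_mul (l : Fin p) (f : MvPowerSeries (Idx q) ℚ) (k : Idx q →₀ ℕ) :
    MvPowerSeries.coeff k (Ug q l * f) =
      ∑ j : Fin (q l), if 1 ≤ k ⟨l, j⟩ then
        MvPowerSeries.coeff (k - Finsupp.single ⟨l, j⟩ 1 : Idx q →₀ ℕ) f else 0 := by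
  classical
  unfold Ug
  rw [Finset.sum_mul, map_sum]
  refine Finset.sum_congr rfl fun j _ => ?_
  rw [MvPowerSeries.X, MvPowerSeries.coeff_monomial_mul]
  simp [Finsupp.single_le_iff]

/-- The sum of the exponents in a group. -/
def sg (l : Fin p) (k : Idx q →₀ ℕ) : ℕ := ∑ j, k ⟨l, j⟩

lemma sg_sub_single {k : Idx q →₀ ℕ} {l : Fin p} {j : Fin (q l)} (h : 1 ≤ k ⟨l, j⟩) :
    sg l (k - Finsupp.single ⟨l, j⟩ 1 : Idx q →₀ ℕ) + 1 = sg l k := by
  classical
  unfold sg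
  have h1 : ∑ i : Fin (q l), (Finsupp.single (⟨l, j⟩ : Idx q) 1 : Idx q →₀ ℕ) ⟨l, i⟩ = 1 := by
    rw [Finset.sum_eq_single j]
    · simp
    · intro i _ hi
      rw [Finsupp.single_apply, if_neg]
      intro h2
      exact hi (eq_of_heq (Sigma.mk.inj h2).2).symm
    · simp
  calc ∑ i, (k - Finsupp.single (⟨l, j⟩ : Idx q) 1 : Idx q →₀ ℕ) ⟨l, i⟩ + 1
      = ∑ i, ((k - Finsupp.single (⟨l, j⟩ : Idx q) 1 : Idx q →₀ ℕ) ⟨l, i⟩ +
          (Finsupp.single (⟨l, j⟩ : Idx q) 1 : Idx q →₀ ℕ) ⟨l, i⟩) := by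
        rw [Finset.sum_add_distrib, h1]
    _ = ∑ i, k ⟨l, i⟩ := ?_
  refine Finset.sum_congr rfl fun i _ => ?_
  by_cases hi : i = j
  · subst hi
    simp only [Finsupp.tsub_apply, Finsupp.single_eq_same]
    omega
  · have h2 : (Finsupp.single (⟨l, j⟩ : Idx q) 1 : Idx q →₀ ℕ) ⟨l, i⟩ = 0 := by
      rw [Finsupp.single_apply, if_neg]
      intro h2
      exact hi (eq_of_heq (Sigma.mk.inj h2).2).symm
    rw [Finsupp.tsub_apply, h2]
    omega

lemma sub_single_ne {k : Idx q →₀ ℕ} {a b : Idx q} (h : a ≠ b) :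
    (k - Finsupp.single a 1 : Idx q →₀ ℕ) b = k b := by
  rw [Finsupp.tsub_apply, Finsupp.single_apply, if_neg h, Nat.sub_zero]

lemma sub_single_group_ne {k : Idx q →₀ ℕ} {l l' : Fin p} (h : l ≠ l') (j : Fin (q l))
    (i : Fin (q l')) : (k - Finsupp.single ⟨l, j⟩ 1 : Idx q →₀ ℕ) ⟨l', i⟩ = k ⟨l', i⟩ :=
  sub_single_ne fun h1 => h (congrArg Sigma.fst h1)

lemma coefC_nonneg (k : Idx q →₀ ℕ) : 0 ≤ coefC k := by
  unfold coefC
  positivity

lemma coefC_sub_single {k : Idx q →₀ ℕ} {l : Fin p} {j : Fin (q l)} (h : 1 ≤ k ⟨l, j⟩) :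
    coefC (k - Finsupp.single ⟨l, j⟩ 1 : Idx q →₀ ℕ) = coefC k * (k ⟨l, j⟩) / (sg l k : ℚ) := by
  classical
  have hn := sg_sub_single h
  obtain ⟨n, hn'⟩ : ∃ n, sg l (k - Finsupp.single ⟨l, j⟩ 1 : Idx q →₀ ℕ) = n := ⟨_, rfl⟩
  have h1 : sg l k = n + 1 := by rw [← hn, hn']
  unfold coefC
  rw [← Finset.mul_prod_erase _ _ (Finset.mem_univ l),
    ← Finset.mul_prod_erase _ (fun l => ((∑ j, k ⟨l, j⟩).factorial : ℚ) /
      ∏ j, ((k ⟨l, j⟩).factorial : ℚ)) (Finset.mem_univ l)]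
  have h3 : ∏ x ∈ Finset.univ.erase l, ((∑ i, (k - Finsupp.single ⟨l, j⟩ 1 : Idx q →₀ ℕ)
      ⟨x, i⟩).factorial : ℚ) / ∏ i, (((k - Finsupp.single ⟨l, j⟩ 1 : Idx q →₀ ℕ)
      ⟨x, i⟩).factorial : ℚ) = ∏ x ∈ Finset.univ.erase l, ((∑ i, k ⟨x, i⟩).factorial : ℚ) /
      ∏ i, ((k ⟨x, i⟩).factorial : ℚ) := by
    refine Finset.prod_congr rfl fun x hx => ?_
    have hx' : l ≠ x := (Finset.ne_of_mem_erase hx).symm
    simp only [sub_single_group_ne hx']
  rw [h3]
  have h4 : ((∑ i, (k - Finsupp.single ⟨l, j⟩ 1 : Idx q →₀ ℕ) ⟨l, i⟩).factorial : ℚ) =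
      (n.factorial : ℚ) := by
    have : ∑ i, (k - Finsupp.single ⟨l, j⟩ 1 : Idx q →₀ ℕ) ⟨l, i⟩ = n := hn'
    rw [this]
  have h5 : ((∑ i, k ⟨l, i⟩).factorial : ℚ) = ((n : ℚ) + 1) * (n.factorial : ℚ) := by
    have : ∑ i, k ⟨l, i⟩ = n + 1 := h1
    rw [this, Nat.factorial_succ]
    push_cast
    ring
  have h6 : (∏ i, ((k ⟨l, i⟩).factorial : ℚ)) =
      (k ⟨l, j⟩) * ∏ i, (((k - Finsupp.single ⟨l, j⟩ 1 : Idx q →₀ ℕ) ⟨l, i⟩).factorial : ℚ) := by
    rw [← Finset.mul_prod_erase _ _ (Finset.mem_univ j),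
      ← Finset.mul_prod_erase _ (fun i => (((k - Finsupp.single (⟨l, j⟩ : Idx q) 1 : Idx q →₀ ℕ)
        ⟨l, i⟩).factorial : ℚ)) (Finset.mem_univ j)]
    have h7 : ∏ i ∈ Finset.univ.erase j, ((k ⟨l, i⟩).factorial : ℚ) =
        ∏ i ∈ Finset.univ.erase j, (((k - Finsupp.single ⟨l, j⟩ 1 : Idx q →₀ ℕ)
          ⟨l, i⟩).factorial : ℚ) := by
      refine Finset.prod_congr rfl fun i hi => ?_
      rw [sub_single_ne]
      intro h8
      exact (Finset.ne_of_mem_erase hi) (eq_of_heq (Sigma.mk.inj h8).2).symm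
    have h8 : ((k ⟨l, j⟩).factorial : ℚ) = (k ⟨l, j⟩) *
        (((k - Finsupp.single ⟨l, j⟩ 1 : Idx q →₀ ℕ) ⟨l, j⟩).factorial : ℚ) := by
      obtain ⟨m, hm⟩ : ∃ m, k ⟨l, j⟩ = m + 1 := ⟨k ⟨l, j⟩ - 1, by omega⟩
      have h9 : (k - Finsupp.single ⟨l, j⟩ 1 : Idx q →₀ ℕ) ⟨l, j⟩ = m := by
        rw [Finsupp.tsub_apply, Finsupp.single_eq_same, hm]
        rfl
      rw [h9, hm, Nat.factorial_succ]
      push_cast
      ring
    rw [h7, h8]
    ring
  rw [h4, h5, h6, h1]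
  have h10 : (∏ i, (((k - Finsupp.single ⟨l, j⟩ 1 : Idx q →₀ ℕ) ⟨l, i⟩).factorial : ℚ)) ≠ 0 := by
    positivity
  have h11 : (k ⟨l, j⟩ : ℚ) ≠ 0 := by
    have : 0 < k ⟨l, j⟩ := by omega
    positivity
  have h12 : ((n : ℚ) + 1) ≠ 0 := by positivity
  push_cast
  field_simp

/-- The series with coefficients `C(k) c(k)`. -/
noncomputable def ser (c : (Idx q →₀ ℕ) → ℚ) : MvPowerSeries (Idx q) ℚ := fun k => coefC k * c k

lemma coeff_ser (c : (Idx q →₀ ℕ) → ℚ) (k : Idx q →₀ ℕ) :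
    MvPowerSeries.coeff k (ser c) = coefC k * c k := rfl

/-- `c` does not depend on the exponents of the group `l`. -/
def Inv (l : Fin p) (c : (Idx q →₀ ℕ) → ℚ) : Prop :=
  ∀ (k : Idx q →₀ ℕ) (j : Fin (q l)), 1 ≤ k ⟨l, j⟩ →
    c (k - Finsupp.single ⟨l, j⟩ 1 : Idx q →₀ ℕ) = c k

open Classical in
lemma one_sub_Ug_mul_ser (l : Fin p) (c : (Idx q →₀ ℕ) → ℚ) (hc : Inv l c) :
    (1 - Ug q l) * ser c = ser (fun k => if ∀ j, k ⟨l, j⟩ = 0 then c k else 0) := by
  ext k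
  rw [sub_mul, one_mul, map_sub, coeff_Ug_mul, coeff_ser, coeff_ser]
  by_cases hk : ∀ j, k ⟨l, j⟩ = 0
  · rw [if_pos hk, Finset.sum_eq_zero, sub_zero]
    intro j _
    rw [if_neg]
    rw [hk j]
    omega
  · rw [if_neg hk, mul_zero]
    have h1 : ∑ j : Fin (q l), (if 1 ≤ k ⟨l, j⟩ then MvPowerSeries.coeff
        (k - Finsupp.single ⟨l, j⟩ 1 : Idx q →₀ ℕ) (ser c) else 0) =
        ∑ j : Fin (q l), coefC k * c k * (k ⟨l, j⟩) / (sg l k : ℚ) := by
      refine Finset.sum_congr rfl fun j _ => ?_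
      by_cases hj : 1 ≤ k ⟨l, j⟩
      · rw [if_pos hj, coeff_ser, coefC_sub_single hj, hc k j hj]
        ring
      · rw [if_neg hj]
        have : k ⟨l, j⟩ = 0 := by omega
        simp [this]
    rw [h1, ← Finset.sum_div, ← Finset.mul_sum]
    have h2 : (sg l k : ℚ) ≠ 0 := by
      intro h
      have h3 : sg l k = 0 := by exact_mod_cast h
      exact hk fun j => (Finset.sum_eq_zero_iff.mp h3) j (Finset.mem_univ j)
    have h3 : (∑ j : Fin (q l), (k ⟨l, j⟩ : ℚ)) = (sg l k : ℚ) := by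
      unfold sg
      push_cast
      rfl
    rw [h3, mul_div_assoc, div_self h2, mul_one, sub_self]

open Classical in
lemma prod_mul_ser (T : Finset (Fin p)) (c : (Idx q →₀ ℕ) → ℚ) (hc : ∀ l ∈ T, Inv l c) :
    (∏ l ∈ T, (1 - Ug q l)) * ser c =
      ser (fun k => if ∀ l ∈ T, ∀ j, k ⟨l, j⟩ = 0 then c k else 0) := by
  induction T using Finset.induction_on with
  | empty => simp
  | insert l T hl ih =>
    rw [Finset.prod_insert hl, mul_assoc, ih fun l' hl' => hc l' (Finset.mem_insert_of_mem hl'),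
      one_sub_Ug_mul_ser]
    · congr 1
      funext k
      by_cases h1 : ∀ j, k ⟨l, j⟩ = 0
      · by_cases h2 : ∀ l ∈ T, ∀ j, k ⟨l, j⟩ = 0
        · rw [if_pos h1, if_pos h2, if_pos]
          intro l' hl'
          rcases Finset.mem_insert.mp hl' with h | h
          · subst h
            exact h1
          · exact h2 l' h
        · rw [if_pos h1, if_neg h2, if_neg]
          intro h3
          exact h2 fun l' hl' => h3 l' (Finset.mem_insert_of_mem hl')
      · rw [if_neg h1, if_neg]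
        intro h3
        exact h1 (h3 l (Finset.mem_insert_self l T))
    · intro k j hj
      have h1 : (∀ l' ∈ T, ∀ i, (k - Finsupp.single ⟨l, j⟩ 1 : Idx q →₀ ℕ) ⟨l', i⟩ = 0) ↔
          ∀ l' ∈ T, ∀ i, k ⟨l', i⟩ = 0 := by
        refine forall_congr' fun l' => forall_congr' fun hl' => forall_congr' fun i => ?_
        have : l ≠ l' := fun h => hl (h ▸ hl')
        rw [sub_single_group_ne this]
      show (if (∀ l' ∈ T, ∀ i, (k - Finsupp.single ⟨l, j⟩ 1 : Idx q →₀ ℕ) ⟨l', i⟩ = 0) then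
        c (k - Finsupp.single ⟨l, j⟩ 1 : Idx q →₀ ℕ) else 0) =
          if (∀ l' ∈ T, ∀ i, k ⟨l', i⟩ = 0) then c k else 0
      rw [hc l (Finset.mem_insert_self l T) k j hj]
      simp only [h1]

/-- The series of all `C(k)`. -/
noncomputable def FF (q : Fin p → ℕ) : MvPowerSeries (Idx q) ℚ := ser (fun _ => 1)

/-- The product of all `1 - U_l`. -/
noncomputable def PP (q : Fin p → ℕ) : MvPowerSeries (Idx q) ℚ := ∏ l, (1 - Ug q l)

lemma coefC_zero' : coefC (0 : Idx q →₀ ℕ) = 1 := by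
  unfold coefC
  simp

lemma PP_mul_FF : PP q * FF q = 1 := by
  classical
  unfold PP FF
  rw [prod_mul_ser _ _ fun l _ k j _ => rfl]
  ext k
  rw [coeff_ser, MvPowerSeries.coeff_one]
  by_cases hk : k = 0
  · subst hk
    simp [coefC_zero']
  · rw [if_neg hk, if_neg, mul_zero]
    intro h
    exact hk (Finsupp.ext fun a => h a.1 (Finset.mem_univ _) a.2)

/-- The weighted series. -/
noncomputable def GG (a : Idx q) : MvPowerSeries (Idx q) ℚ :=
  ser fun k => harmonic (sg a.1 k) - harmonic (k a)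

open Classical in
/-- The coefficients of the logarithmic series. -/
noncomputable def ca (a : Idx q) (k : Idx q →₀ ℕ) : ℚ :=
  if k a = 0 then 1 / (sg a.1 k : ℚ) else 0

lemma ca_nonneg (a : Idx q) (k : Idx q →₀ ℕ) : 0 ≤ ca a k := by
  unfold ca
  split_ifs
  · positivity
  · exact le_rfl

lemma one_sub_Ug_mul_GG (a : Idx q) : (1 - Ug q a.1) * GG a = ser (ca a) := by
  classical
  obtain ⟨l, i⟩ := a
  ext k
  unfold GG
  rw [sub_mul, one_mul, map_sub, coeff_Ug_mul, coeff_ser, coeff_ser]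
  by_cases hk : ∀ j, k ⟨l, j⟩ = 0
  · have hs : sg l k = 0 := Finset.sum_eq_zero fun j _ => hk j
    rw [Finset.sum_eq_zero, sub_zero]
    · simp [ca, hs, hk i]
    · intro j _
      rw [if_neg]
      rw [hk j]
      omega
  · obtain ⟨n, hn⟩ : ∃ n, sg l k = n + 1 := by
      rcases Nat.eq_zero_or_pos (sg l k) with h | h
      · exact absurd (fun j => (Finset.sum_eq_zero_iff.mp h) j (Finset.mem_univ j)) hk
      · exact ⟨sg l k - 1, by omega⟩
    have h1 : ∑ j : Fin (q l), (if 1 ≤ k ⟨l, j⟩ then MvPowerSeries.coeff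
        (k - Finsupp.single ⟨l, j⟩ 1 : Idx q →₀ ℕ)
        (ser fun k => harmonic (sg l k) - harmonic (k ⟨l, i⟩)) else 0) =
        ∑ j : Fin (q l), (coefC k * (k ⟨l, j⟩) / (sg l k : ℚ) *
          (harmonic n - harmonic (k ⟨l, i⟩)) +
          if j = i ∧ k ⟨l, i⟩ ≠ 0 then coefC k / (sg l k : ℚ) else 0) := by
      refine Finset.sum_congr rfl fun j _ => ?_
      by_cases hj : 1 ≤ k ⟨l, j⟩
      · have h3 : sg l (k - Finsupp.single ⟨l, j⟩ 1 : Idx q →₀ ℕ) = n := by
          have := sg_sub_single hj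
          omega
        rw [if_pos hj, coeff_ser, coefC_sub_single hj, h3]
        by_cases hji : j = i
        · subst hji
          obtain ⟨m, hm⟩ : ∃ m, k ⟨l, j⟩ = m + 1 := ⟨k ⟨l, j⟩ - 1, by omega⟩
          have h4 : (k - Finsupp.single ⟨l, j⟩ 1 : Idx q →₀ ℕ) ⟨l, j⟩ = m := by
            rw [Finsupp.tsub_apply, Finsupp.single_eq_same, hm]
            rfl
          rw [h4, hm, if_pos ⟨rfl, by omega⟩, harmonic_succ]
          have h5 : ((m : ℚ) + 1) ≠ 0 := by positivity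
          have h6 : (sg l k : ℚ) ≠ 0 := by rw [hn]; positivity
          push_cast at h6 ⊢
          field_simp
          ring
        · have h4 : (k - Finsupp.single ⟨l, j⟩ 1 : Idx q →₀ ℕ) ⟨l, i⟩ = k ⟨l, i⟩ := by
            refine sub_single_ne fun h => hji ?_
            exact eq_of_heq (Sigma.mk.inj h).2
          rw [h4, if_neg (fun h => hji h.1), add_zero]
      · rw [if_neg hj]
        have h0 : k ⟨l, j⟩ = 0 := by omega
        rw [if_neg (fun h => h.2 (h.1 ▸ h0))]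
        simp [h0]
    rw [h1, Finset.sum_add_distrib, ← Finset.sum_mul, ← Finset.sum_div, ← Finset.mul_sum]
    have h2 : (sg l k : ℚ) ≠ 0 := by rw [hn]; positivity
    have h3 : (∑ j : Fin (q l), (k ⟨l, j⟩ : ℚ)) = (sg l k : ℚ) := by
      unfold sg
      push_cast
      rfl
    have h7 : (∑ j : Fin (q l), if j = i ∧ k ⟨l, i⟩ ≠ 0 then coefC k / (sg l k : ℚ) else 0) =
        if k ⟨l, i⟩ = 0 then 0 else coefC k / (sg l k : ℚ) := by
      by_cases hj : k ⟨l, i⟩ = 0
      · simp [hj]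
      · simp [hj]
    rw [h3, mul_div_assoc, div_self h2, mul_one, h7]
    show coefC k * (harmonic (sg l k) - harmonic (k ⟨l, i⟩)) - (coefC k *
      (harmonic n - harmonic (k ⟨l, i⟩)) + _) = coefC k * ca ⟨l, i⟩ k
    rw [hn, harmonic_succ]
    unfold ca
    by_cases hj : k ⟨l, i⟩ = 0
    · rw [if_pos hj, if_pos hj]
      show _ = coefC k * (1 / (sg l k : ℚ))
      rw [hn]
      push_cast
      ring
    · rw [if_neg hj, if_neg hj]
      push_cast
      ring

open Classical in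
/-- The logarithmic series. -/
noncomputable def LL (a : Idx q) : MvPowerSeries (Idx q) ℚ :=
  ser fun k => if ∀ l ∈ Finset.univ.erase a.1, ∀ j, k ⟨l, j⟩ = 0 then ca a k else 0

lemma LL_nonneg (a : Idx q) (k : Idx q →₀ ℕ) : 0 ≤ MvPowerSeries.coeff k (LL a) := by
  unfold LL
  rw [coeff_ser]
  refine mul_nonneg (coefC_nonneg k) ?_
  split_ifs
  · exact ca_nonneg a k
  · exact le_rfl

lemma PP_mul_GG (a : Idx q) : PP q * GG a = LL a := by
  classical
  unfold PP
  rw [← Finset.mul_prod_erase _ _ (Finset.mem_univ a.1), mul_comm (1 - Ug q a.1), mul_assoc,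
    one_sub_Ug_mul_GG, prod_mul_ser]
  · rfl
  · intro l hl k j hj
    have hne : l ≠ a.1 := Finset.ne_of_mem_erase hl
    unfold ca sg
    have h1 : ∀ i, (k - Finsupp.single ⟨l, j⟩ 1 : Idx q →₀ ℕ) ⟨a.1, i⟩ = k ⟨a.1, i⟩ :=
      fun i => sub_single_group_ne hne j i
    have h2 : (k - Finsupp.single ⟨l, j⟩ 1 : Idx q →₀ ℕ) a = k a := h1 a.2
    rw [h2]
    simp only [h1]

lemma GG_eq (a : Idx q) : GG a = FF q * LL a := by
  rw [← PP_mul_GG a, ← mul_assoc, mul_comm (FF q), PP_mul_FF, one_mul]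

variable (v : Idx q → Fin d → ℤ)

/-- The vector of an exponent. -/
def V (k : Idx q →₀ ℕ) : Fin d → ℤ := ∑ a, (k a : ℤ) • v a

lemma V_add (k l : Idx q →₀ ℕ) : V v (k + l) = V v k + V v l := by
  unfold V
  rw [← Finset.sum_add_distrib]
  refine Finset.sum_congr rfl fun a _ => ?_
  rw [Finsupp.add_apply, Nat.cast_add, add_smul]

lemma phi0_eq' : phi0 v = proj v (FF q) := by
  classical
  ext k
  rw [coeff_proj]
  unfold FF
  rw [coeff_ser, mul_one]
  rfl

lemma phi_eq' (a : Idx q) : phi v a = proj v (GG a) := by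
  classical
  ext k
  rw [coeff_proj]
  unfold GG
  rw [coeff_ser]
  rfl

lemma constantCoeff_phi0' : MvPowerSeries.constantCoeff (phi0 v) ≠ 0 := by
  classical
  rw [← MvPowerSeries.coeff_zero_eq_constantCoeff_apply, phi0_eq', coeff_proj,
    if_pos (inK0_zero v)]
  unfold FF
  rw [coeff_ser, coefC_zero', mul_one]
  exact one_ne_zero

lemma supp_inv' : Supp v (phi0 v)⁻¹ := by
  have h0 : Supp v (phi0 v) := by
    rw [phi0_eq']
    exact supp_proj v _
  have h1 : proj v (phi0 v)⁻¹ * phi0 v = 1 := by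
    rw [← proj_mul v _ h0, MvPowerSeries.inv_mul_cancel _ (constantCoeff_phi0' v), proj_one]
  have h2 : proj v (phi0 v)⁻¹ = (phi0 v)⁻¹ := by
    calc proj v (phi0 v)⁻¹ = proj v (phi0 v)⁻¹ * (phi0 v * (phi0 v)⁻¹) := by
          rw [MvPowerSeries.mul_inv_cancel _ (constantCoeff_phi0' v), mul_one]
      _ = (phi0 v)⁻¹ := by rw [← mul_assoc, h1, one_mul]
  rw [← h2]
  exact supp_proj v _

/-- `F / φ₀`. -/
noncomputable def DD : MvPowerSeries (Idx q) ℚ := FF q * (phi0 v)⁻¹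

lemma proj_DD : proj v (DD v) = 1 := by
  unfold DD
  rw [proj_mul v _ (supp_inv' v), ← phi0_eq',
    MvPowerSeries.mul_inv_cancel _ (constantCoeff_phi0' v)]

/-- The vector of `k` is a combination of the vectors outside the group `l`. -/
def Avoid (l : Fin p) (k : Idx q →₀ ℕ) : Prop :=
  ∃ m : Idx q →₀ ℕ, (∀ j, m ⟨l, j⟩ = 0) ∧ V v m = V v k

/-- `(1 - U_l) F / φ₀` is supported on the exponents whose vector is a combination of the vectors
outside the group `l`. -/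
lemma coeff_one_sub_Ug_mul_DD (l : Fin p) (k : Idx q →₀ ℕ) (hk : ¬ Avoid v l k) :
    MvPowerSeries.coeff k ((1 - Ug q l) * DD v) = 0 := by
  classical
  unfold DD FF
  rw [← mul_assoc, one_sub_Ug_mul_ser _ _ (fun k j _ => rfl), MvPowerSeries.coeff_mul]
  refine Finset.sum_eq_zero fun x hx => ?_
  rw [Finset.HasAntidiagonal.mem_antidiagonal] at hx
  rw [coeff_ser]
  by_cases h1 : ∀ j, x.1 ⟨l, j⟩ = 0
  · by_cases h2 : InK0 v x.2
    · exfalso
      refine hk ⟨x.1, h1, ?_⟩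
      have h3 : V v x.2 = 0 := h2
      rw [← hx, V_add, h3, add_zero]
    · rw [supp_inv' v _ h2, mul_zero]
  · rw [if_neg h1, mul_zero, zero_mul]

lemma DD_nonneg (H : ∀ k : Idx q →₀ ℕ, (∀ l, Avoid v l k) → InK0 v k) (k : Idx q →₀ ℕ) :
    0 ≤ MvPowerSeries.coeff k (DD v) := by
  classical
  obtain ⟨n, hn⟩ : ∃ n, ∑ s, k s = n := ⟨_, rfl⟩
  induction n using Nat.strong_induction_on generalizing k with
  | _ n ih =>
    by_cases hk : InK0 v k
    · have h1 : MvPowerSeries.coeff k (DD v) = MvPowerSeries.coeff k (proj v (DD v)) := by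
        rw [coeff_proj, if_pos hk]
      rw [h1, proj_DD, MvPowerSeries.coeff_one]
      split_ifs
      · exact zero_le_one
      · exact le_rfl
    · obtain ⟨l, hl⟩ : ∃ l, ¬ Avoid v l k := by
        by_contra h
        push Not at h
        exact hk (H k h)
      have h1 : DD v = (1 - Ug q l) * DD v + Ug q l * DD v := by ring
      rw [h1, map_add, coeff_one_sub_Ug_mul_DD v l k hl, zero_add, coeff_Ug_mul]
      refine Finset.sum_nonneg fun j _ => ?_
      split_ifs with hs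
      · refine ih _ ?_ _ rfl
        have h2 := sum_sub_single (k := k) (s := ⟨l, j⟩) hs
        omega
      · exact le_rfl

/-- **The criterion.** -/
theorem logMirror_nonneg' (H : ∀ k : Idx q →₀ ℕ, (∀ l, Avoid v l k) → InK0 v k) (a : Idx q)
    (k : Idx q →₀ ℕ) : 0 ≤ MvPowerSeries.coeff k (logMirror v a) := by
  classical
  have h2 : logMirror v a = proj v (LL a * DD v) := by
    unfold logMirror DD
    rw [phi_eq', ← proj_mul v _ (supp_inv' v), GG_eq]
    congr 1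
    ring
  rw [h2, coeff_proj]
  split_ifs
  · rw [MvPowerSeries.coeff_mul]
    exact Finset.sum_nonneg fun x _ => mul_nonneg (LL_nonneg a _) (DD_nonneg v H _)
  · exact le_rfl

end Pool.Agent.KS6_16.NM
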